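import Pool.Agent.helper16.LW.Spec

/-! Project lw, module H0B: the term of frequency `0`. -/

set_option autoImplicit false

open Complex MeasureTheory

namespace Pool.Agent.LW

open Pool.Agent.ZD Pool.Agent.helper84.DM Pool.Agent.helper78.ED Pool.Agent.DH

theorem H0B_ee0 : ee 0 = 1 := by
  unfold ee
  simp

theorem H0B_HH (u : ℝ) : HH u 0 =
    ∫ y : ℝ, ((Phi y : ℝ) : ℂ) * Complex.exp (-(((u * Real.log y : ℝ) : ℂ) * I)) := by
  unfold HH
  congr 1
  funext y
  rw [zero_mul, neg_zero, H0B_ee0, mul_one]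

theorem H0B_int (hPHS : PHS_stmt) (u : ℝ) :
    Integrable (fun y : ℝ => ((Phi y : ℝ) : ℂ) *
      Complex.exp (-(((u * Real.log y : ℝ) : ℂ) * I))) := by
  obtain ⟨hs, -, h01, -, h0, h64⟩ := hPHS
  have hc : Continuous Phi := hs.continuous
  have hcs : HasCompactSupport Phi := by
    refine HasCompactSupport.intro (isCompact_Icc (a := (1 / 2 : ℝ)) (b := 64)) (fun y hy => ?_)
    rw [Set.mem_Icc, not_and_or, not_le, not_le] at hy
    rcases hy with hy | hy
    · exact h0 y hy.le
    · exact h64 y hy.le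
  have hi : Integrable Phi := hc.integrable_of_hasCompactSupport hcs
  refine Integrable.mono' hi ?_ ?_
  · apply Measurable.aestronglyMeasurable
    have h1 : Measurable fun y : ℝ => ((Phi y : ℝ) : ℂ) :=
      Complex.measurable_ofReal.comp hc.measurable
    have h2 : Measurable fun y : ℝ => Complex.exp (-(((u * Real.log y : ℝ) : ℂ) * I)) := by
      have h3 : Measurable fun y : ℝ => ((u * Real.log y : ℝ) : ℂ) :=
        Complex.measurable_ofReal.comp (Real.measurable_log.const_mul u)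
      exact Complex.measurable_exp.comp (h3.mul_const I).neg
    exact h1.mul h2
  · refine Filter.Eventually.of_forall (fun y => ?_)
    rw [norm_mul, Complex.norm_real, Real.norm_of_nonneg (h01 y).1]
    have h4 : ‖Complex.exp (-(((u * Real.log y : ℝ) : ℂ) * I))‖ = 1 := by
      rw [← neg_mul, ← Complex.ofReal_neg, Complex.norm_exp_ofReal_mul_I]
    rw [h4, mul_one]

theorem H0B (hIBZ : IBZ_stmt) (hPHS : PHS_stmt) : H0B_stmt := by
  refine ⟨?_, ?_, ?_, ?_⟩
  · -- (1)
    obtain ⟨C0, hC0, g0⟩ := hIBZ _ hPHS.2.1 0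
    obtain ⟨C2, hC2, h2⟩ := hIBZ _ hPHS.2.1 2
    refine ⟨C0 + C2 + 1, by linarith, fun X u hX => ?_⟩
    have e0 := g0 u
    have e2 := h2 u
    rw [pow_zero, mul_one] at e0
    rw [sq_abs] at e2
    have e3 : ‖HH u 0‖ * (1 + u ^ 2) ≤ C0 + C2 := by
      rw [H0B_HH]
      linarith
    have hk : 0 < 1 + u ^ 2 := by positivity
    have e4 : ‖HH u 0‖ ≤ (C0 + C2 + 1) * kap u := by
      unfold kap
      rw [mul_one_div, le_div_iff₀ hk]
      linarith
    unfold h0
    rw [norm_mul, norm_mul, ← neg_mul, ← Complex.ofReal_neg, Complex.norm_exp_ofReal_mul_I, one_mul,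
      Complex.norm_real, Real.norm_of_nonneg hX]
    calc X * ‖HH u 0‖ ≤ X * ((C0 + C2 + 1) * kap u) := mul_le_mul_of_nonneg_left e4 hX
      _ = (C0 + C2 + 1) * X * kap u := by ring
  · -- (2)
    intro X u
    unfold h0
    rw [map_mul, map_mul, Complex.conj_ofReal, H0B_HH, H0B_HH, ← integral_conj, ← Complex.exp_conj]
    congr 2
    · rw [map_neg, map_mul, Complex.conj_ofReal, Complex.conj_I]
      push_cast
      ring_nf
    · congr 1
      funext y
      simp only [map_mul, Complex.conj_ofReal, ← Complex.exp_conj, map_neg, Complex.conj_I]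
      congr 2
      push_cast
      ring
  · -- (3)
    intro X hX S x
    have hA : ∀ (θ : ℝ) (j k : ℤ), Complex.exp (-(((((j : ℝ) - k) * θ : ℝ) : ℂ) * I)) =
        Complex.exp (-(((j * θ : ℝ) : ℂ) * I)) *
          (starRingEnd ℂ) (Complex.exp (-(((k * θ : ℝ) : ℂ) * I))) := by
      intro θ j k
      rw [← Complex.exp_conj, ← Complex.exp_add]
      congr 1
      rw [map_neg, map_mul, Complex.conj_ofReal, Complex.conj_I]
      push_cast
      ring
    have hh : ∀ j k : ℤ, h0 X ((j : ℝ) - k) = ∫ y : ℝ, (X : ℂ) *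
        (Complex.exp (-(((((j : ℝ) - k) * Real.log X : ℝ) : ℂ) * I)) * (((Phi y : ℝ) : ℂ) *
          Complex.exp (-(((((j : ℝ) - k) * Real.log y : ℝ) : ℂ) * I)))) := by
      intro j k
      unfold h0
      rw [H0B_HH, integral_const_mul, integral_const_mul]
      ring
    have hint : ∀ j k : ℤ, Integrable (fun y : ℝ => (starRingEnd ℂ) (x j) * x k * ((X : ℂ) *
        (Complex.exp (-(((((j : ℝ) - k) * Real.log X : ℝ) : ℂ) * I)) * (((Phi y : ℝ) : ℂ) *
          Complex.exp (-(((((j : ℝ) - k) * Real.log y : ℝ) : ℂ) * I)))))) := by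
      intro j k
      exact (((H0B_int hPHS _).const_mul _).const_mul _).const_mul _
    have hsum : ∑ j ∈ S, ∑ k ∈ S, (starRingEnd ℂ) (x j) * x k * h0 X ((j : ℝ) - k) =
        ∫ y : ℝ, ∑ j ∈ S, ∑ k ∈ S, (starRingEnd ℂ) (x j) * x k * ((X : ℂ) *
        (Complex.exp (-(((((j : ℝ) - k) * Real.log X : ℝ) : ℂ) * I)) * (((Phi y : ℝ) : ℂ) *
          Complex.exp (-(((((j : ℝ) - k) * Real.log y : ℝ) : ℂ) * I))))) := by
      rw [integral_finset_sum S (fun j _ => integrable_finset_sum S (fun k _ => hint j k))]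
      refine Finset.sum_congr rfl (fun j _ => ?_)
      rw [integral_finset_sum S (fun k _ => hint j k)]
      refine Finset.sum_congr rfl (fun k _ => ?_)
      rw [hh]
      exact (integral_const_mul _ _).symm
    have hpt : ∀ y : ℝ, ∑ j ∈ S, ∑ k ∈ S, (starRingEnd ℂ) (x j) * x k * ((X : ℂ) *
        (Complex.exp (-(((((j : ℝ) - k) * Real.log X : ℝ) : ℂ) * I)) * (((Phi y : ℝ) : ℂ) *
          Complex.exp (-(((((j : ℝ) - k) * Real.log y : ℝ) : ℂ) * I))))) =
        ((X * (Phi y * ‖∑ j ∈ S, (starRingEnd ℂ) (x j) *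
          Complex.exp (-(((j * (Real.log X + Real.log y) : ℝ) : ℂ) * I))‖ ^ 2) : ℝ) : ℂ) := by
      intro y
      have h1 : ((‖∑ j ∈ S, (starRingEnd ℂ) (x j) *
          Complex.exp (-(((j * (Real.log X + Real.log y) : ℝ) : ℂ) * I))‖ ^ 2 : ℝ) : ℂ) =
          ∑ j ∈ S, ∑ k ∈ S, ((starRingEnd ℂ) (x j) *
            Complex.exp (-(((j * (Real.log X + Real.log y) : ℝ) : ℂ) * I))) *
            (x k * (starRingEnd ℂ) (Complex.exp (-(((k * (Real.log X + Real.log y) : ℝ) : ℂ) * I)))) := by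
        rw [Complex.ofReal_pow, ← Complex.mul_conj', map_sum, Finset.sum_mul_sum]
        refine Finset.sum_congr rfl (fun j _ => Finset.sum_congr rfl (fun k _ => ?_))
        rw [map_mul, Complex.conj_conj]
      rw [Complex.ofReal_mul, Complex.ofReal_mul, h1, Finset.mul_sum, Finset.mul_sum]
      refine Finset.sum_congr rfl (fun j _ => ?_)
      rw [Finset.mul_sum, Finset.mul_sum]
      refine Finset.sum_congr rfl (fun k _ => ?_)
      have h2 : Complex.exp (-(((((j : ℝ) - k) * Real.log X : ℝ) : ℂ) * I)) *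
          Complex.exp (-(((((j : ℝ) - k) * Real.log y : ℝ) : ℂ) * I)) =
          Complex.exp (-(((((j : ℝ) - k) * (Real.log X + Real.log y) : ℝ) : ℂ) * I)) := by
        rw [← Complex.exp_add]
        congr 1
        push_cast
        ring
      have h3 := hA (Real.log X + Real.log y) j k
      rw [← h2] at h3
      linear_combination ((starRingEnd ℂ) (x j) * x k * (X : ℂ) * ((Phi y : ℝ) : ℂ)) * h3
    rw [hsum]
    have hre : ∫ y : ℝ, ∑ j ∈ S, ∑ k ∈ S, (starRingEnd ℂ) (x j) * x k * ((X : ℂ) *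
        (Complex.exp (-(((((j : ℝ) - k) * Real.log X : ℝ) : ℂ) * I)) * (((Phi y : ℝ) : ℂ) *
          Complex.exp (-(((((j : ℝ) - k) * Real.log y : ℝ) : ℂ) * I))))) =
        ((∫ y : ℝ, X * (Phi y * ‖∑ j ∈ S, (starRingEnd ℂ) (x j) *
          Complex.exp (-(((j * (Real.log X + Real.log y) : ℝ) : ℂ) * I))‖ ^ 2) : ℝ) : ℂ) := by
      rw [← integral_complex_ofReal]
      exact integral_congr_ae (Filter.Eventually.of_forall hpt)
    rw [hre, Complex.ofReal_re]
    refine integral_nonneg (fun y => ?_)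
    have := (hPHS.2.2.1 y).1
    positivity
  · -- (4)
    intro X u
    unfold BX
    rw [map_sum]
    refine Finset.sum_congr rfl (fun k _ => ?_)
    rw [map_mul, Complex.conj_ofReal]
    congr 1
    have harg : ((k : ℂ)).arg ≠ Real.pi := by
      rw [Complex.natCast_arg]
      exact Real.pi_pos.ne
    have h := Complex.conj_cpow (k : ℂ) (-(((-u : ℝ) : ℂ) * I)) harg
    rw [Complex.conj_natCast] at h
    rw [h]
    congr 2
    rw [map_neg, map_mul, Complex.conj_ofReal, Complex.conj_I]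
    push_cast
    ring

end Pool.Agent.LW
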